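import Pool.Agent.Y262.EG.Stm

/-!
# Project EG, job JAC1: basic properties of the solutions of the Jacobi equation
-/

set_option autoImplicit false

open Set Filter Topology MeasureTheory

noncomputable section

namespace Pool.Agent.Y903.EG

open Pool.Agent.Y262.EG

theorem contOf {f f' : ℝ → ℝ} (h : ∀ t, HasDerivAt f (f' t) t) : Continuous f :=
  continuous_iff_continuousAt.mpr fun t => (h t).continuousAt

theorem monoOf {f f' : ℝ → ℝ} (h : ∀ t, HasDerivAt f (f' t) t) {D : Set ℝ} (hD : Convex ℝ D)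
    (hp : ∀ t ∈ D, 0 ≤ f' t) : MonotoneOn f D := by
  apply monotoneOn_of_deriv_nonneg hD (contOf h).continuousOn
  · intro t _
    exact (h t).differentiableAt.differentiableWithinAt
  · intro t ht
    rw [(h t).deriv]
    exact hp t (interior_subset ht)

theorem antiOf {f f' : ℝ → ℝ} (h : ∀ t, HasDerivAt f (f' t) t) {D : Set ℝ} (hD : Convex ℝ D)
    (hp : ∀ t ∈ D, f' t ≤ 0) : AntitoneOn f D := by
  apply antitoneOn_of_deriv_nonpos hD (contOf h).continuousOn
  · intro t _
    exact (h t).differentiableAt.differentiableWithinAt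
  · intro t ht
    rw [(h t).deriv]
    exact hp t (interior_subset ht)

/-- a function which vanishes on an interval has derivative zero at the middle -/
theorem zeroMid {f f' : ℝ → ℝ} (h : ∀ t, HasDerivAt f (f' t) t) {a b : ℝ} (hab : a < b)
    (h0 : ∀ t ∈ Icc a b, f t = 0) : f ((a + b) / 2) = 0 ∧ f' ((a + b) / 2) = 0 := by
  have hm : (a + b) / 2 ∈ Ioo a b := ⟨by linarith, by linarith⟩
  refine ⟨h0 _ (Ioo_subset_Icc_self hm), ?_⟩
  have he : f =ᶠ[𝓝 ((a + b) / 2)] fun _ => (0 : ℝ) := by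
    filter_upwards [Ioo_mem_nhds hm.1 hm.2] with t ht
    exact h0 t (Ioo_subset_Icc_self ht)
  have h1 : HasDerivAt f 0 ((a + b) / 2) := (hasDerivAt_const _ (0 : ℝ)).congr_of_eventuallyEq he
  exact (h _).unique h1

/-- a continuous function without zeros keeps its sign -/
theorem posOf {f : ℝ → ℝ} (hf : Continuous f) (h0 : 0 < f 0) {t : ℝ} (ht : 0 ≤ t)
    (hne : ∀ x ∈ Icc 0 t, f x ≠ 0) : 0 < f t := by
  by_contra hcon
  push Not at hcon
  have h1 : (0 : ℝ) ∈ Icc (f t) (f 0) := ⟨hcon, h0.le⟩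
  obtain ⟨x, hx, hx0⟩ := intermediate_value_Icc' ht hf.continuousOn h1
  exact hne x hx hx0

theorem wron {k c c1 s s1 : ℝ → ℝ} (h : Jac k c c1 s s1) (t : ℝ) :
    c t * s1 t - c1 t * s t = 1 := by
  have hd : ∀ t, HasDerivAt (fun t => c t * s1 t - c1 t * s t) 0 t := by
    intro t
    have h1 := ((h.dc t).mul (h.ds1 t)).sub ((h.dc1 t).mul (h.ds t))
    refine h1.congr_deriv ?_
    ring
  have h2 := is_const_of_deriv_eq_zero (fun t => (hd t).differentiableAt)
    (fun t => (hd t).deriv) t 0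
  simp only [h.c0, h.s10, h.c10, h.s0] at h2
  linarith

theorem fwd {k c c1 s s1 : ℝ → ℝ} (h : Jac k c c1 s s1) (hk : ∀ t, 0 ≤ k t) :
    ∀ t, 0 ≤ t → 1 ≤ s1 t ∧ t ≤ s t := by
  have hss : ∀ t, HasDerivAt (fun t => s t * s1 t) (s1 t * s1 t + s t * (k t * s t)) t :=
    fun t => (h.ds t).mul (h.ds1 t)
  have hm1 : MonotoneOn (fun t => s t * s1 t) (Ici 0) := by
    refine monoOf hss (convex_Ici 0) ?_
    intro t _
    have := hk t
    nlinarith [mul_self_nonneg (s1 t), mul_nonneg this (mul_self_nonneg (s t))]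
  have hn1 : ∀ t, 0 ≤ t → 0 ≤ s t * s1 t := by
    intro t ht
    have := hm1 (mem_Ici.mpr le_rfl) (mem_Ici.mpr ht) ht
    simpa [h.s0] using this
  have hsq : ∀ t, HasDerivAt (fun t => s t * s t) (s1 t * s t + s t * s1 t) t :=
    fun t => (h.ds t).mul (h.ds t)
  have hne : ∀ t, 0 ≤ t → s1 t ≠ 0 := by
    intro t ht h0
    rcases ht.eq_or_lt with rfl | ht'
    · rw [h.s10] at h0
      exact one_ne_zero h0
    have hz : ∀ x ∈ Icc 0 t, s x * s1 x = 0 := by
      intro x hx
      apply le_antisymm _ (hn1 x hx.1)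
      have := hm1 (mem_Ici.mpr hx.1) (mem_Ici.mpr ht) hx.2
      simpa [h0] using this
    have hanti : AntitoneOn (fun t => s t * s t) (Icc 0 t) := by
      refine antiOf hsq (convex_Icc 0 t) ?_
      intro x hx
      have := hz x hx
      nlinarith
    have hs0 : ∀ x ∈ Icc 0 t, s x = 0 := by
      intro x hx
      have h1 := hanti (left_mem_Icc.mpr ht) hx hx.1
      simp only [h.s0, mul_zero] at h1
      exact mul_self_eq_zero.mp (le_antisymm h1 (mul_self_nonneg _))
    obtain ⟨e1, e2⟩ := zeroMid h.ds ht' hs0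
    have hw := wron h ((0 + t) / 2)
    rw [e1, e2] at hw
    norm_num at hw
  have hpos : ∀ t, 0 ≤ t → 0 < s1 t := fun t ht =>
    posOf (contOf h.ds1) (by rw [h.s10]; exact one_pos) ht fun x hx => hne x hx.1
  have hmono : MonotoneOn s (Ici 0) := monoOf h.ds (convex_Ici 0) fun t ht => (hpos t ht).le
  have hs : ∀ t, 0 ≤ t → 0 ≤ s t := by
    intro t ht
    have := hmono (mem_Ici.mpr le_rfl) (mem_Ici.mpr ht) ht
    simpa [h.s0] using this
  have hmono1 : MonotoneOn s1 (Ici 0) :=
    monoOf h.ds1 (convex_Ici 0) fun t ht => mul_nonneg (hk t) (hs t ht)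
  have hs1 : ∀ t, 0 ≤ t → 1 ≤ s1 t := by
    intro t ht
    have := hmono1 (mem_Ici.mpr le_rfl) (mem_Ici.mpr ht) ht
    simpa [h.s10] using this
  intro t ht
  refine ⟨hs1 t ht, ?_⟩
  have hd : ∀ t, HasDerivAt (fun t => s t - t) (s1 t - 1) t := fun t =>
    (h.ds t).sub (hasDerivAt_id t)
  have hm : MonotoneOn (fun t => s t - t) (Ici 0) :=
    monoOf hd (convex_Ici 0) fun t ht => by linarith [hs1 t ht]
  have := hm (mem_Ici.mpr le_rfl) (mem_Ici.mpr ht) ht
  simp only [h.s0] at this
  linarith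

theorem rev {k c c1 s s1 : ℝ → ℝ} (h : Jac k c c1 s s1) :
    Jac (fun t => k (-t)) (fun t => c (-t)) (fun t => -c1 (-t)) (fun t => -s (-t))
      (fun t => s1 (-t)) := by
  have hneg : ∀ t : ℝ, HasDerivAt (fun t : ℝ => -t) (-1) t := fun t => hasDerivAt_neg t
  refine ⟨h.kc.comp continuous_neg, ?_, ?_, ?_, ?_, ?_, ?_, ?_, ?_⟩
  · simp [h.c0]
  · simp [h.c10]
  · simp [h.s0]
  · simp [h.s10]
  · intro t
    have h1 := (h.dc (-t)).comp t (hneg t)
    refine h1.congr_deriv ?_
    ring
  · intro t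
    have h1 := ((h.dc1 (-t)).comp t (hneg t)).neg
    refine h1.congr_deriv ?_
    ring
  · intro t
    have h1 := ((h.ds (-t)).comp t (hneg t)).neg
    refine h1.congr_deriv ?_
    ring
  · intro t
    have h1 := (h.ds1 (-t)).comp t (hneg t)
    refine h1.congr_deriv ?_
    ring

/-- **JAC1** -/
theorem jac1 : StJac1 := by
  intro k c c1 s s1 h hk
  have hf := fwd h hk
  refine ⟨wron h, fun t ht => (hf t ht.le).2, ?_, ?_⟩
  · intro t ht
    have := (fwd (rev h) (fun t => hk (-t)) (-t) (by linarith)).2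
    simp only [neg_neg] at this
    linarith
  intro T u y y1 hT hu hy hy1
  have hsT : 0 < s T := lt_of_lt_of_le hT (hf T hT.le).2
  have dy : ∀ t, HasDerivAt y (y1 t) t := by
    intro t
    have h1 := (h.dc t).add ((h.ds t).const_mul u)
    have h2 : y = fun t => c t + u * s t := funext hy
    rw [h2, hy1 t]
    exact h1
  have dy1 : ∀ t, HasDerivAt y1 (k t * y t) t := by
    intro t
    have h1 := (h.dc1 t).add ((h.ds1 t).const_mul u)
    have h2 : y1 = fun t => c1 t + u * s1 t := funext hy1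
    rw [h2, hy t]
    refine h1.congr_deriv ?_
    ring
  have W : ∀ t, y t * s1 t - y1 t * s t = 1 := by
    intro t
    have := wron h t
    rw [hy t, hy1 t]
    linear_combination this
  have y0 : y 0 = 1 := by rw [hy, h.c0, h.s0]; ring
  have y10 : y1 0 = u := by rw [hy1, h.c10, h.s10]; ring
  have yT : y T = 0 := by
    rw [hy, hu]
    field_simp
    ring
  have hyy : ∀ t, HasDerivAt (fun t => y t * y1 t) (y1 t * y1 t + y t * (k t * y t)) t :=
    fun t => (dy t).mul (dy1 t)
  have hmyy : MonotoneOn (fun t => y t * y1 t) (Iic T) := by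
    refine monoOf hyy (convex_Iic T) ?_
    intro t _
    nlinarith [mul_self_nonneg (y1 t), mul_nonneg (hk t) (mul_self_nonneg (y t))]
  have hnyy : ∀ t, t ≤ T → y t * y1 t ≤ 0 := by
    intro t ht
    have := hmyy (mem_Iic.mpr ht) (mem_Iic.mpr le_rfl) ht
    simpa [yT] using this
  have hsq : ∀ t, HasDerivAt (fun t => y t * y t) (y1 t * y t + y t * y1 t) t :=
    fun t => (dy t).mul (dy t)
  have hasq : AntitoneOn (fun t => y t * y t) (Iic T) := by
    refine antiOf hsq (convex_Iic T) ?_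
    intro t ht
    have := hnyy t ht
    nlinarith
  have hne : ∀ t, t < T → y t ≠ 0 := by
    intro t ht h0
    have hz : ∀ x ∈ Icc t T, y x = 0 := by
      intro x hx
      have h1 := hasq (mem_Iic.mpr ht.le) (mem_Iic.mpr hx.2) hx.1
      simp only [h0, mul_zero] at h1
      exact mul_self_eq_zero.mp (le_antisymm h1 (mul_self_nonneg _))
    obtain ⟨e1, e2⟩ := zeroMid dy ht hz
    have hw := W ((t + T) / 2)
    rw [e1, e2] at hw
    norm_num at hw
  have hpos : ∀ t, 0 ≤ t → t < T → 0 < y t := fun t ht0 ht =>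
    posOf (contOf dy) (by rw [y0]; exact one_pos) ht0 fun x hx => hne x (lt_of_le_of_lt hx.2 ht)
  have hnn : ∀ t ∈ Icc 0 T, 0 ≤ y t := by
    intro t ht
    rcases ht.2.eq_or_lt with h1 | h1
    · rw [h1, yT]
    · exact (hpos t ht.1 h1).le
  have hy1T : y1 T ≤ 0 := by
    have := W T
    rw [yT] at this
    nlinarith
  have hy1n : ∀ t ∈ Icc 0 T, y1 t ≤ 0 := by
    intro t ht
    rcases ht.2.eq_or_lt with h1 | h1
    · rw [h1]
      exact hy1T
    · have h2 := hpos t ht.1 h1
      have h3 := hnyy t ht.2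
      by_contra hcon
      push Not at hcon
      nlinarith [mul_pos h2 hcon]
  have hant : AntitoneOn y (Icc 0 T) := antiOf dy (convex_Icc 0 T) hy1n
  have hmon : MonotoneOn y1 (Icc 0 T) :=
    monoOf dy1 (convex_Icc 0 T) fun t ht => mul_nonneg (hk t) (hnn t ht)
  have hys : ∀ t ∈ Icc 0 T, y t * s t ≤ t := by
    have hd : ∀ t, HasDerivAt (fun t => t - y t * s t) (1 - (y1 t * s t + y t * s1 t)) t :=
      fun t => (hasDerivAt_id t).sub ((dy t).mul (h.ds t))
    have hm : MonotoneOn (fun t => t - y t * s t) (Icc 0 T) := by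
      refine monoOf hd (convex_Icc 0 T) ?_
      intro t ht
      have h1 := W t
      have h2 := hy1n t ht
      have h3 : 0 ≤ s t := le_trans ht.1 (hf t ht.1).2
      nlinarith [mul_nonneg (neg_nonneg.mpr h2) h3]
    intro t ht
    have := hm (left_mem_Icc.mpr hT.le) ht ht.1
    simp only [h.s0, mul_zero] at this
    linarith
  have huT : u ≤ -(1 / T) := by
    have hd : ∀ t, HasDerivAt (fun t => y t - u * t) (y1 t - u * 1) t :=
      fun t => (dy t).sub ((hasDerivAt_id t).const_mul u)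
    have hm : MonotoneOn (fun t => y t - u * t) (Icc 0 T) := by
      refine monoOf hd (convex_Icc 0 T) ?_
      intro t ht
      have := hmon (left_mem_Icc.mpr hT.le) ht ht.1
      rw [y10] at this
      linarith
    have := hm (left_mem_Icc.mpr hT.le) (right_mem_Icc.mpr hT.le) hT.le
    simp only [y0, yT, mul_zero] at this
    have h2 : u * T ≤ -1 := by linarith
    have h3 : u ≤ -1 / T := by
      rw [le_div_iff₀ hT]
      exact h2
    rw [neg_div] at h3
    exact h3
  have cy := contOf dy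
  have cy1 := contOf dy1
  have cs := contOf h.ds
  have cs1 := contOf h.ds1
  refine ⟨huT, fun t ht => ⟨hnn t ht, ?_, hy1n t ht, le_trans ht.1 (hf t ht.1).2, hys t ht⟩, W,
    hant, hmon, ?_, ?_⟩
  · have := hant (left_mem_Icc.mpr hT.le) ht ht.1
    rwa [y0] at this
  · have hd : ∀ t, HasDerivAt (fun t => y1 t * (y t * s t) - y t)
        (k t * y t * (y t * s t) + y1 t * (y1 t * s t + y t * s1 t) - y1 t) t :=
      fun t => ((dy1 t).mul ((dy t).mul (h.ds t))).sub (dy t)
    have hcg : Continuous fun t =>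
        k t * y t * (y t * s t) + y1 t * (y1 t * s t + y t * s1 t) - y1 t :=
      (((h.kc.mul cy).mul (cy.mul cs)).add (cy1.mul ((cy1.mul cs).add (cy.mul cs1)))).sub cy1
    have hcf : Continuous fun t => k t * y t * (y t * s t) := (h.kc.mul cy).mul (cy.mul cs)
    have h1 : (∫ t in (0 : ℝ)..T, k t * y t * (y t * s t)) ≤
        ∫ t in (0 : ℝ)..T, (k t * y t * (y t * s t) + y1 t * (y1 t * s t + y t * s1 t) - y1 t) := by
      refine intervalIntegral.integral_mono_on hT.le (hcf.intervalIntegrable 0 T)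
        (hcg.intervalIntegrable 0 T) ?_
      intro t ht
      have h2 := W t
      have h3 : 0 ≤ s t := le_trans ht.1 (hf t ht.1).2
      have h4 : y1 t * (y1 t * s t + y t * s1 t) - y1 t = 2 * (y1 t * y1 t) * s t := by
        linear_combination y1 t * h2
      have h5 : 0 ≤ 2 * (y1 t * y1 t) * s t :=
        mul_nonneg (mul_nonneg zero_le_two (mul_self_nonneg _)) h3
      linarith
    have h2 := intervalIntegral.integral_eq_sub_of_hasDerivAt (a := 0) (b := T)
      (fun t _ => hd t) (hcg.intervalIntegrable 0 T)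
    rw [h2] at h1
    simp only [yT, y0, h.s0, zero_mul, mul_zero] at h1
    linarith
  · have h2 := intervalIntegral.integral_eq_sub_of_hasDerivAt (a := 0) (b := T)
      (fun t _ => dy1 t) ((h.kc.mul cy).intervalIntegrable 0 T)
    have h3 : (∫ t in (0 : ℝ)..T, k t * y t) = y1 T - y1 0 := h2
    rw [h3, y10]
    linarith

end Pool.Agent.Y903.EG
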